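import Pool.Agent.H113Z.Iso.Shoot

/-!
A circle of bi-hyperbolic motions of three bodies in four-space with the same limit shapes.
-/

set_option autoImplicit false

open Set Filter Topology

namespace Pool.Agent.H113Z.Iso

/-- Euclidean four-space -/
abbrev E4 : Type := EuclideanSpace ℝ (Fin 4)
/-- configurations of three bodies -/
abbrev C3 : Type := Fin 3 → E4

/-- the masses -/
def ms : Fin 3 → ℝ := ![64, 64, 1]

/-- configurations without collisions -/
def Om : Set C3 := {x | ∀ i j, i ≠ j → x i ≠ x j}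

/-- the Newtonian acceleration -/
noncomputable def acc (x : C3) : C3 :=
  fun i => ∑ j ∈ Finset.univ.erase i, (ms j / ‖x j - x i‖ ^ 3) • (x j - x i)

theorem contDiffAt_acc {x : C3} (hx : x ∈ Om) : ContDiffAt ℝ 1 acc x := by
  rw [contDiffAt_pi]
  intro i
  refine ContDiffAt.sum fun j hj => ?_
  have hne : x j - x i ≠ 0 := sub_ne_zero.2 (hx j i (Finset.ne_of_mem_erase hj))
  have h1 : ContDiffAt ℝ 1 (fun y : C3 => y j - y i) x := by fun_prop
  exact (contDiffAt_const.div ((h1.norm ℝ hne).pow 3) (pow_ne_zero 3 (norm_ne_zero_iff.2 hne))).smul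
    h1

theorem unique {γ γ' δ δ' : ℝ → C3} (hΩ : ∀ t, γ t ∈ Om) (g1 : ∀ t, HasDerivAt γ (γ' t) t)
    (g2 : ∀ t, HasDerivAt γ' (acc (γ t)) t) (d1 : ∀ t, HasDerivAt δ (δ' t) t)
    (d2 : ∀ t, HasDerivAt δ' (acc (δ t)) t) (h1 : γ 0 = δ 0) (h2 : γ' 0 = δ' 0) : γ = δ := by
  let VF : C3 × C3 → C3 × C3 := fun u => (u.2, acc u.1)
  let f : ℝ → C3 × C3 := fun t => (γ t, γ' t)
  let g : ℝ → C3 × C3 := fun t => (δ t, δ' t)
  have hf : ∀ t, HasDerivAt f (VF (f t)) t := fun t => (g1 t).prodMk (g2 t)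
  have hg : ∀ t, HasDerivAt g (VF (g t)) t := fun t => (d1 t).prodMk (d2 t)
  have cf : Continuous f := continuous_iff_continuousAt.2 fun t => (hf t).continuousAt
  have cg : Continuous g := continuous_iff_continuousAt.2 fun t => (hg t).continuousAt
  have hcl : IsClopen {t | f t = g t} := by
    refine ⟨isClosed_eq cf cg, isOpen_iff_mem_nhds.2 fun t ht => ?_⟩
    have hV : ContDiffAt ℝ 1 VF (f t) :=
      contDiffAt_snd.prodMk ((contDiffAt_acc (hΩ t)).comp (f t) contDiffAt_fst)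
    obtain ⟨K, s, hs, hK⟩ := hV.exists_lipschitzOnWith
    have ht' : f t = g t := ht
    exact ODE_solution_unique_of_eventually (v := fun _ => VF) (s := fun _ => s) (K := K)
      (Eventually.of_forall fun _ => hK)
      ((cf.continuousAt.eventually hs).mono fun r hr => ⟨hf r, hr⟩)
      ((cg.continuousAt.eventually (ht' ▸ hs)).mono fun r hr => ⟨hg r, hr⟩) ht'
  have := hcl.eq_univ ⟨0, Prod.ext h1 h2⟩
  funext t
  have ht : t ∈ {t | f t = g t} := this ▸ mem_univ t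
  exact congrArg Prod.fst ht

/-- a bi-hyperbolic motion with its limit shapes -/
def Mot (γ γ' : ℝ → C3) (am ap : C3) : Prop :=
  (∀ t, γ t ∈ Om) ∧ (∀ t, HasDerivAt γ (γ' t) t) ∧ (∀ t, HasDerivAt γ' (acc (γ t)) t) ∧
    am ∈ Om ∧ ap ∈ Om ∧ Tendsto (fun t : ℝ => t⁻¹ • γ t) atTop (𝓝 ap) ∧
    Tendsto (fun t : ℝ => |t|⁻¹ • γ t) atBot (𝓝 am)

open Classical in
/-- the limit shape map -/
noncomputable def shape (p : C3 × C3) : C3 × C3 :=
  if h : ∃ a : C3 × C3, ∃ γ γ' : ℝ → C3, γ 0 = p.1 ∧ γ' 0 = p.2 ∧ Mot γ γ' a.1 a.2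
  then h.choose else 0

theorem shape_eq {γ γ' : ℝ → C3} {am ap : C3} (h : Mot γ γ' am ap) :
    shape (γ 0, γ' 0) = (am, ap) := by
  have hex : ∃ a : C3 × C3, ∃ δ δ' : ℝ → C3, δ 0 = (γ 0, γ' 0).1 ∧ δ' 0 = (γ 0, γ' 0).2 ∧
      Mot δ δ' a.1 a.2 := ⟨(am, ap), γ, γ', rfl, rfl, h⟩
  rw [shape, dif_pos hex]
  obtain ⟨δ, δ', h1, h2, k⟩ := hex.choose_spec
  have e : γ = δ := unique h.1 h.2.1 h.2.2.1 k.2.1 k.2.2.1 h1.symm h2.symm
  subst e
  exact Prod.ext (tendsto_nhds_unique k.2.2.2.2.2.2 h.2.2.2.2.2.2)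
    (tendsto_nhds_unique k.2.2.2.2.2.1 h.2.2.2.2.2.1)

/-- the vector with given coordinates -/
noncomputable def V4 (x y z w : ℝ) : E4 := !₂[x, y, z, w]

theorem V4_norm {x y z w r : ℝ} (hr : 0 ≤ r) (h : x ^ 2 + y ^ 2 + z ^ 2 + w ^ 2 = r ^ 2) :
    ‖V4 x y z w‖ = r := by
  rw [← sq_eq_sq₀ (norm_nonneg _) hr, EuclideanSpace.norm_sq_eq, Fin.sum_univ_four, ← h]
  simp [V4]

theorem V4_sub (x y z w x' y' z' w' : ℝ) :
    V4 x y z w - V4 x' y' z' w' = V4 (x - x') (y - y') (z - z') (w - w') := by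
  ext i; fin_cases i <;> simp [V4]

/-- isosceles configurations: the axis has direction `(0, 0, a, b)` -/
noncomputable def cfg (a b x y s : ℝ) : C3 :=
  ![V4 x y (-(a * s) / 129) (-(b * s) / 129), V4 (-x) (-y) (-(a * s) / 129) (-(b * s) / 129),
    V4 0 0 (128 * (a * s) / 129) (128 * (b * s) / 129)]

theorem cfg_eq (a b x y s : ℝ) :
    cfg a b x y s = x • cfg a b 1 0 0 + y • cfg a b 0 1 0 + s • cfg a b 0 0 1 := by
  funext i
  ext j
  fin_cases i <;> fin_cases j <;> simp [cfg, V4] <;> ring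

theorem cfg_smul (a b c x y s : ℝ) : c • cfg a b x y s = cfg a b (c * x) (c * y) (c * s) := by
  funext i
  ext j
  fin_cases i <;> fin_cases j <;> simp [cfg, V4] <;> ring

theorem cfg_deriv (a b : ℝ) {x y s : ℝ → ℝ} {x' y' s' t : ℝ} (hx : HasDerivAt x x' t)
    (hy : HasDerivAt y y' t) (hs : HasDerivAt s s' t) :
    HasDerivAt (fun t => cfg a b (x t) (y t) (s t)) (cfg a b x' y' s') t := by
  have : (fun t => cfg a b (x t) (y t) (s t))
      = fun t => x t • cfg a b 1 0 0 + y t • cfg a b 0 1 0 + s t • cfg a b 0 0 1 :=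
    funext fun t => cfg_eq _ _ _ _ _
  rw [this, cfg_eq a b x' y' s']
  exact ((hx.smul_const _).add (hy.smul_const _)).add (hs.smul_const _)

theorem cfg_tendsto (a b : ℝ) {l : Filter ℝ} {x y s : ℝ → ℝ} {x' y' : ℝ}
    (hx : Tendsto x l (𝓝 x')) (hy : Tendsto y l (𝓝 y')) (hs : Tendsto s l (𝓝 0)) :
    Tendsto (fun t => cfg a b (x t) (y t) (s t)) l (𝓝 (cfg 0 0 x' y' 0)) := by
  have : (fun t => cfg a b (x t) (y t) (s t))
      = fun t => x t • cfg a b 1 0 0 + y t • cfg a b 0 1 0 + s t • cfg a b 0 0 1 :=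
    funext fun t => cfg_eq _ _ _ _ _
  have e : cfg 0 0 x' y' 0 = cfg a b x' y' 0 := by simp [cfg]
  rw [this, e, cfg_eq a b x' y' 0]
  exact ((hx.smul_const _).add (hy.smul_const _)).add (hs.smul_const _)

section norms

variable {a b x y s r : ℝ} (hab : a ^ 2 + b ^ 2 = 1) (hr : 0 < r) (hxy : x ^ 2 + y ^ 2 = r ^ 2)
include hr hxy

theorem n10 : ‖cfg a b x y s 1 - cfg a b x y s 0‖ = 2 * r := by
  simp only [cfg, Matrix.cons_val_zero, Matrix.cons_val_one, V4_sub]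
  exact V4_norm (by positivity) (by linear_combination 4 * hxy)

include hab

theorem n20 : ‖cfg a b x y s 2 - cfg a b x y s 0‖ = Rr r s := by
  simp only [cfg, Matrix.cons_val_zero, Matrix.cons_val, V4_sub]
  exact V4_norm (Rr_nonneg _ _) (by rw [Rr_sq]; linear_combination hxy + s ^ 2 * hab)

theorem n21 : ‖cfg a b x y s 2 - cfg a b x y s 1‖ = Rr r s := by
  simp only [cfg, Matrix.cons_val_zero, Matrix.cons_val_one, Matrix.cons_val, V4_sub]
  exact V4_norm (Rr_nonneg _ _) (by rw [Rr_sq]; linear_combination hxy + s ^ 2 * hab)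

theorem cfg_mem : cfg a b x y s ∈ Om := by
  have h1 := n10 (a := a) (b := b) (s := s) hr hxy
  have h2 := n20 (s := s) hab hr hxy
  have h3 := n21 (s := s) hab hr hxy
  have hR : 0 < Rr r s := hr.trans_le (le_Rr _ _)
  have k1 : cfg a b x y s 1 ≠ cfg a b x y s 0 := fun e => by
    rw [e, sub_self, norm_zero] at h1; linarith
  have k2 : cfg a b x y s 2 ≠ cfg a b x y s 0 := fun e => by
    rw [e, sub_self, norm_zero] at h2; linarith
  have k3 : cfg a b x y s 2 ≠ cfg a b x y s 1 := fun e => by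
    rw [e, sub_self, norm_zero] at h3; linarith
  intro i j hij
  fin_cases i <;> fin_cases j
  · exact absurd rfl hij
  · exact k1.symm
  · exact k2.symm
  · exact k1
  · exact absurd rfl hij
  · exact k3.symm
  · exact k2
  · exact k3
  · exact absurd rfl hij

theorem acc_cfg : acc (cfg a b x y s) = cfg a b (-(16 / r ^ 3 + 1 / Rr r s ^ 3) * x)
    (-(16 / r ^ 3 + 1 / Rr r s ^ 3) * y) (-129 * (s / Rr r s ^ 3)) := by
  have h1 := n10 (a := a) (b := b) (s := s) hr hxy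
  have h2 := n20 (s := s) hab hr hxy
  have h3 := n21 (s := s) hab hr hxy
  have h1' := (norm_sub_rev _ _).trans h1
  have h2' := (norm_sub_rev _ _).trans h2
  have h3' := (norm_sub_rev _ _).trans h3
  funext i
  unfold acc
  rw [Finset.sum_erase_eq_sub (Finset.mem_univ _), Fin.sum_univ_three]
  fin_cases i
  · simp only [Fin.zero_eta, h1, h2, sub_self, smul_zero]
    ext j
    fin_cases j <;> simp [cfg, V4, ms] <;> ring
  · simp only [Fin.mk_one, h1', h3, sub_self, smul_zero]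
    ext j
    fin_cases j <;> simp [cfg, V4, ms] <;> ring
  · simp only [Fin.reduceFinMk, h2', h3', sub_self, smul_zero]
    ext j
    fin_cases j <;> simp [cfg, V4, ms] <;> ring

end norms

theorem exists_circle : ∃ (w : ℝ) (am ap : C3), 0 < w ∧ ∀ a b : ℝ, a ^ 2 + b ^ 2 = 1 →
    ∃ γ γ' : ℝ → C3, γ 0 = cfg a b 1 0 0 ∧ γ' 0 = cfg a b 0 6 w ∧ Mot γ γ' am ap := by
  obtain ⟨w, ρ, p, z, v, hw, h, hv⟩ := exists_flat
  obtain ⟨f, hf⟩ := h.lim_ang
  obtain ⟨L, hL, hp⟩ := h.lim_p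
  have l1 := tendsto_div (fun t => (h.eqs t).dρ) hp
  have l2 := tendsto_div (fun t => (h.eqs t).dz) hv
  have lX : Tendsto (fun t => t⁻¹ * (ρ t * Real.cos (ang ρ t))) atTop (𝓝 (L * Real.cos f)) := by
    exact (l1.mul ((Real.continuous_cos.tendsto f).comp hf)).congr fun t => mul_assoc _ _ _
  have lY : Tendsto (fun t => t⁻¹ * (ρ t * Real.sin (ang ρ t))) atTop (𝓝 (L * Real.sin f)) := by
    exact (l1.mul ((Real.continuous_sin.tendsto f).comp hf)).congr fun t => mul_assoc _ _ _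
  have hxy : ∀ r u : ℝ, (r * Real.cos u) ^ 2 + (r * Real.sin u) ^ 2 = r ^ 2 := fun r u => by
    linear_combination r ^ 2 * Real.cos_sq_add_sin_sq u
  refine ⟨w, cfg 0 0 (L * Real.cos f) (-(L * Real.sin f)) 0,
    cfg 0 0 (L * Real.cos f) (L * Real.sin f) 0, hw, fun a b hab =>
    ⟨fun t => cfg a b (ρ t * Real.cos (ang ρ t)) (ρ t * Real.sin (ang ρ t)) (z t),
     fun t => cfg a b (p t * Real.cos (ang ρ t) - 6 / ρ t * Real.sin (ang ρ t))
       (p t * Real.sin (ang ρ t) + 6 / ρ t * Real.cos (ang ρ t)) (v t), ?_, ?_,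
     fun t => cfg_mem hab (h.ρ_pos t) (hxy _ _),
     fun t => cfg_deriv a b (h.dX t) (h.dY t) (h.eqs t).dz, fun t => ?_, ?_, ?_, ?_, ?_⟩⟩
  · simp [h.ρ0, h.z0, ang_zero]
  · simp [h.ρ0, h.p0, h.v0, ang_zero]
  · rw [acc_cfg hab (h.ρ_pos t) (hxy _ _)]
    exact cfg_deriv a b (h.dX1 t) (h.dY1 t) (h.eqs t).dv
  · have e : cfg 0 0 (L * Real.cos f) (-(L * Real.sin f)) 0
        = cfg 1 0 (L * Real.cos f) (-(L * Real.sin f)) 0 := by simp [cfg]
    rw [e]
    exact cfg_mem (by norm_num) hL (by rw [neg_sq]; exact hxy _ _)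
  · have e : cfg 0 0 (L * Real.cos f) (L * Real.sin f) 0
        = cfg 1 0 (L * Real.cos f) (L * Real.sin f) 0 := by simp [cfg]
    rw [e]
    exact cfg_mem (by norm_num) hL (hxy _ _)
  · simp only [cfg_smul]
    exact cfg_tendsto a b lX lY l2
  · simp only [cfg_smul]
    refine cfg_tendsto a b ?_ ?_ ?_
    · refine (lX.comp tendsto_neg_atBot_atTop).congr' ?_
      filter_upwards [eventually_lt_atBot 0] with t ht
      simp only [Function.comp, h.ρ_even, h.ang_odd, Real.cos_neg, abs_of_neg ht]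
    · refine (lY.comp tendsto_neg_atBot_atTop).neg.congr' ?_
      filter_upwards [eventually_lt_atBot 0] with t ht
      simp only [Function.comp, h.ρ_even, h.ang_odd, Real.sin_neg, abs_of_neg ht]
      ring
    · have := (l2.comp tendsto_neg_atBot_atTop).neg
      rw [neg_zero] at this
      refine this.congr' ?_
      filter_upwards [eventually_lt_atBot 0] with t ht
      simp only [Function.comp, h.z_odd, abs_of_neg ht]
      ring

theorem cfg_com (a b x y s : ℝ) : ∑ i, ms i • cfg a b x y s i = 0 := by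
  rw [Fin.sum_univ_three]
  ext j
  fin_cases j <;> simp [cfg, V4, ms] <;> ring

theorem cfg_orth (a b w : ℝ) : ∑ i, ms i * inner ℝ (cfg a b 1 0 0 i) (cfg a b 0 6 w i) = 0 := by
  rw [Fin.sum_univ_three]
  simp [cfg, V4, ms, PiLp.inner_apply, Fin.sum_univ_four]

theorem not_locally_injective (P₀ : Set (C3 × C3))
    (hP : ∀ p : C3 × C3, (∃ γ γ' : ℝ → C3, ∃ am ap : C3, γ 0 = p.1 ∧ γ' 0 = p.2 ∧ Mot γ γ' am ap) →
      ∑ i, ms i • p.1 i = 0 → ∑ i, ms i • p.2 i = 0 →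
      ∑ i, ms i * inner ℝ (p.1 i) (p.2 i) = 0 → p ∈ P₀) :
    ∃ p ∈ P₀, ∀ U : Set (C3 × C3), IsOpen U → p ∈ U →
      ∃ q ∈ P₀ ∩ U, q ≠ p ∧ shape q = shape p := by
  obtain ⟨w, am, ap, hw, h⟩ := exists_circle
  let P : ℝ → C3 × C3 := fun θ =>
    (cfg (Real.cos θ) (Real.sin θ) 1 0 0, cfg (Real.cos θ) (Real.sin θ) 0 6 w)
  have hmem : ∀ θ, P θ ∈ P₀ ∧ shape (P θ) = (am, ap) := by
    intro θ
    obtain ⟨γ, γ', h1, h2, hm⟩ := h _ _ (Real.cos_sq_add_sin_sq θ)
    refine ⟨hP _ ⟨γ, γ', am, ap, h1, h2, hm⟩ (cfg_com _ _ _ _ _) (cfg_com _ _ _ _ _)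
      (cfg_orth _ _ _), ?_⟩
    have := shape_eq hm
    rwa [h1, h2] at this
  have hc : Continuous P := by
    refine Continuous.prodMk (continuous_pi fun i => ?_) (continuous_pi fun i => ?_) <;>
      fin_cases i <;> simp only [cfg, V4] <;> fun_prop
  refine ⟨P 0, (hmem 0).1, fun U hU hp => ?_⟩
  have h1 : ∀ᶠ θ in 𝓝[>] (0 : ℝ), P θ ∈ U :=
    (hc.continuousAt.eventually (hU.mem_nhds hp)).filter_mono nhdsWithin_le_nhds
  obtain ⟨θ, hθ, hθ2⟩ := (h1.and (Ioo_mem_nhdsGT Real.pi_pos)).exists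
  refine ⟨P θ, ⟨(hmem θ).1, hθ⟩, fun e => ?_, by rw [(hmem θ).2, (hmem 0).2]⟩
  have h2 := congrArg (fun q : C3 × C3 => q.2 2 3) e
  simp [P, cfg, V4] at h2
  have := Real.sin_pos_of_pos_of_lt_pi hθ2.1 hθ2.2
  rcases h2 with h2 | h2 <;> linarith

end Pool.Agent.H113Z.Iso
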