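import Pool.Agent.H839R2.Ode.Flow

/-!
The spatial isosceles three-body problem with masses 64, 64, 1 and angular momentum parameter 6:
existence for all time and dependence on the initial vertical speed.
-/

set_option autoImplicit false

open Set Filter Topology
open Pool.Agent.H839R2.Ode

namespace Pool.Agent.H113Z.Iso

/-- distance from a heavy body to the light body -/
noncomputable def Rr (a z : ℝ) : ℝ := Real.sqrt (a ^ 2 + z ^ 2)

theorem Rr_sq (a z : ℝ) : Rr a z ^ 2 = a ^ 2 + z ^ 2 := Real.sq_sqrt (by positivity)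
theorem Rr_nonneg (a z : ℝ) : 0 ≤ Rr a z := Real.sqrt_nonneg _
theorem le_Rr (a z : ℝ) : a ≤ Rr a z := Real.le_sqrt_of_sq_le (by nlinarith [sq_nonneg z])
theorem abs_le_Rr (a z : ℝ) : |z| ≤ Rr a z :=
  Real.le_sqrt_of_sq_le (by rw [sq_abs]; nlinarith [sq_nonneg a])
theorem Rr_neg (a z : ℝ) : Rr a (-z) = Rr a z := by unfold Rr; rw [neg_sq]

theorem Rr_lip (a z a' z' : ℝ) : |Rr a z - Rr a' z'| ≤ |a - a'| + |z - z'| := by
  have h1 : Rr a z = ‖(⟨a, z⟩ : ℂ)‖ := by rw [Complex.norm_eq_sqrt_sq_add_sq]; rfl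
  have h2 : Rr a' z' = ‖(⟨a', z'⟩ : ℂ)‖ := by rw [Complex.norm_eq_sqrt_sq_add_sq]; rfl
  rw [h1, h2]
  exact (abs_norm_sub_norm_le _ _).trans (Complex.norm_le_abs_re_add_abs_im _)

theorem key_lip {x x' R R' : ℝ} (h1 : 1 ≤ R) (h2 : 1 ≤ R') (hx : |x'| ≤ R') :
    |x / R ^ 3 - x' / R' ^ 3| ≤ |x - x'| + 3 * |R - R'| := by
  have hR : 0 < R := by linarith
  have hR' : 0 < R' := by linarith
  have e : x / R ^ 3 - x' / R' ^ 3 = (x - x') * (1 / R ^ 3)
      + (x' / R') * (R' - R) * (1 / (R * R' ^ 2) + 1 / (R ^ 2 * R') + 1 / R ^ 3) := by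
    field_simp; ring
  have a1 : 1 / R ^ 3 ≤ 1 := by rw [div_le_one (by positivity)]; exact one_le_pow₀ h1
  have a2 : 1 / (R * R' ^ 2) ≤ 1 := by
    rw [div_le_one (by positivity)]; exact one_le_mul_of_one_le_of_one_le h1 (one_le_pow₀ h2)
  have a3 : 1 / (R ^ 2 * R') ≤ 1 := by
    rw [div_le_one (by positivity)]; exact one_le_mul_of_one_le_of_one_le (one_le_pow₀ h1) h2
  have a4 : |x' / R'| ≤ 1 := by rw [abs_div, abs_of_pos hR', div_le_one hR']; exact hx
  rw [e]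
  refine (abs_add_le _ _).trans (add_le_add ?_ ?_)
  · rw [abs_mul, abs_of_pos (by positivity : 0 < 1 / R ^ 3)]
    exact mul_le_of_le_one_right (abs_nonneg _) a1
  · rw [abs_mul, abs_mul, abs_sub_comm R' R,
      abs_of_pos (by positivity : 0 < 1 / (R * R' ^ 2) + 1 / (R ^ 2 * R') + 1 / R ^ 3)]
    calc |x' / R'| * |R - R'| * (1 / (R * R' ^ 2) + 1 / (R ^ 2 * R') + 1 / R ^ 3)
        ≤ 1 * |R - R'| * 3 := by gcongr; linarith
      _ = 3 * |R - R'| := by ring

/-- the truncated vector field -/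
noncomputable def W (u : ℝ × ℝ × ℝ × ℝ) : ℝ × ℝ × ℝ × ℝ :=
  (cl 7 u.2.1,
   36 * (1 / max u.1 1 ^ 3) - 16 * (max u.1 1 / max u.1 1 ^ 3)
     - max u.1 1 / Rr (max u.1 1) u.2.2.1 ^ 3,
   cl 21 u.2.2.2,
   -129 * (u.2.2.1 / Rr (max u.1 1) u.2.2.1 ^ 3))

theorem div_cube_le {x R : ℝ} (h1 : 1 ≤ R) (hx : |x| ≤ R) : |x / R ^ 3| ≤ 1 := by
  have hR : 0 < R := by linarith
  rw [abs_div, abs_of_pos (by positivity : 0 < R ^ 3), div_le_one (by positivity)]
  exact hx.trans (le_self_pow₀ h1 (by norm_num))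

theorem W_bound (u : ℝ × ℝ × ℝ × ℝ) : ‖W u‖ ≤ ((129 : NNReal) : ℝ) := by
  have h1 : 1 ≤ max u.1 1 := le_max_right _ _
  have h2 : 1 ≤ Rr (max u.1 1) u.2.2.1 := h1.trans (le_Rr _ _)
  have b1 := abs_le.1 (div_cube_le (x := 1) h1 (by simp))
  have b2 := abs_le.1 (div_cube_le (x := max u.1 1) h1 (by rw [abs_of_pos (by linarith)]))
  have b3 := abs_le.1 (div_cube_le (x := max u.1 1) h2
    (by rw [abs_of_pos (by linarith)]; exact le_Rr _ _))
  have b4 := abs_le.1 (div_cube_le (x := u.2.2.1) h2 (abs_le_Rr _ _))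
  have c1 := abs_cl_le (R := 7) (by norm_num) u.2.1
  have c2 := abs_cl_le (R := 21) (by norm_num) u.2.2.2
  simp only [W, Prod.norm_mk, Real.norm_eq_abs, max_le_iff, NNReal.coe_ofNat]
  refine ⟨by linarith, abs_le.2 ⟨by linarith, by linarith⟩, by linarith,
    abs_le.2 ⟨by linarith, by linarith⟩⟩

theorem W_lip : LipschitzWith 1000 W := by
  refine LipschitzWith.of_dist_le_mul fun u u' => ?_
  set d := dist u u' with hd
  have d0 : 0 ≤ d := dist_nonneg
  have d1 : |u.1 - u'.1| ≤ d := le_max_left _ _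
  have d2 : |u.2.1 - u'.2.1| ≤ d := (le_max_left _ _).trans (le_max_right _ _)
  have d3 : |u.2.2.1 - u'.2.2.1| ≤ d :=
    ((le_max_left _ _).trans (le_max_right _ _)).trans (le_max_right _ _)
  have d4 : |u.2.2.2 - u'.2.2.2| ≤ d :=
    ((le_max_right _ _).trans (le_max_right _ _)).trans (le_max_right _ _)
  have h1 : 1 ≤ max u.1 1 := le_max_right _ _
  have h1' : 1 ≤ max u'.1 1 := le_max_right _ _
  have h2 : 1 ≤ Rr (max u.1 1) u.2.2.1 := h1.trans (le_Rr _ _)
  have h2' : 1 ≤ Rr (max u'.1 1) u'.2.2.1 := h1'.trans (le_Rr _ _)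
  have m1 : |max u.1 1 - max u'.1 1| ≤ d := (abs_max_sub_max_le_abs _ _ _).trans d1
  have r1 := Rr_lip (max u.1 1) u.2.2.1 (max u'.1 1) u'.2.2.1
  have b1 := abs_le.1 (key_lip (x := 1) (x' := 1) h1 h1' (by simp))
  have b2 := abs_le.1 (key_lip (x := max u.1 1) (x' := max u'.1 1) h1 h1'
    (by rw [abs_of_pos (by linarith)]))
  have b3 := abs_le.1 (key_lip (x := max u.1 1) (x' := max u'.1 1) h2 h2'
    (by rw [abs_of_pos (by linarith)]; exact le_Rr _ _))
  have b4 := abs_le.1 (key_lip (x := u.2.2.1) (x' := u'.2.2.1) h2 h2' (abs_le_Rr _ _))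
  have c1 := abs_cl_sub_le 7 u.2.1 u'.2.1
  have c2 := abs_cl_sub_le 21 u.2.2.2 u'.2.2.2
  rw [sub_self, abs_zero] at b1
  simp only [W, Prod.dist_eq, Real.dist_eq, max_le_iff, NNReal.coe_ofNat]
  refine ⟨by linarith, abs_le.2 ⟨by linarith, by linarith⟩, by linarith,
    abs_le.2 ⟨by linarith, by linarith⟩⟩

theorem mono_le {g g' : ℝ → ℝ} {a b : ℝ} (hab : a ≤ b)
    (hd : ∀ t ∈ Icc a b, HasDerivAt g (g' t) t) (h0 : ∀ t ∈ Icc a b, 0 ≤ g' t) : g a ≤ g b := by
  have hm : MonotoneOn g (Icc a b) := by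
    refine monotoneOn_of_deriv_nonneg (convex_Icc a b)
      (fun t ht => (hd t ht).continuousAt.continuousWithinAt)
      (fun t ht => (hd t (interior_subset ht)).differentiableAt.differentiableWithinAt)
      (fun t ht => ?_)
    rw [(hd t (interior_subset ht)).deriv]
    exact h0 t (interior_subset ht)
  exact hm (left_mem_Icc.2 hab) (right_mem_Icc.2 hab) hab

/-- the equations of motion hold at time `t` -/
structure Eqs (ρ p z v : ℝ → ℝ) (t : ℝ) : Prop where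
  dρ : HasDerivAt ρ (p t) t
  dp : HasDerivAt p (36 / ρ t ^ 3 - 16 / ρ t ^ 2 - ρ t / Rr (ρ t) (z t) ^ 3) t
  dz : HasDerivAt z (v t) t
  dv : HasDerivAt v (-129 * (z t / Rr (ρ t) (z t) ^ 3)) t
  one_le : 1 ≤ ρ t

section est

variable {ρ p z v : ℝ → ℝ}

theorem Eqs.dR {t : ℝ} (h : Eqs ρ p z v t) : HasDerivAt (fun t => Rr (ρ t) (z t))
    ((ρ t * p t + z t * v t) / Rr (ρ t) (z t)) t := by
  have h0 : 0 < ρ t := by linarith [h.one_le]
  have h1 := ((h.dρ.pow 2).add (h.dz.pow 2)).sqrt (by simp only [Pi.add_apply, Pi.pow_apply]; positivity)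
  refine h1.congr_deriv ?_
  have : Rr (ρ t) (z t) ≠ 0 := by linarith [le_Rr (ρ t) (z t)]
  simp only [Pi.add_apply, Pi.pow_apply]
  change _ / (2 * Rr (ρ t) (z t)) = _
  field_simp
  push_cast
  ring

theorem Eqs.dK {t : ℝ} (h : Eqs ρ p z v t) :
    HasDerivAt (fun t => p t ^ 2 / 2 + 18 / ρ t ^ 2 - 17 / ρ t)
      (p t * (1 / ρ t ^ 2 - ρ t / Rr (ρ t) (z t) ^ 3)) t := by
  have h0 : ρ t ≠ 0 := by linarith [h.one_le]
  have h1 := (((h.dp.pow 2).div_const 2).add
    ((hasDerivAt_const t (18 : ℝ)).div (h.dρ.pow 2) (pow_ne_zero 2 h0))).sub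
    ((hasDerivAt_const t (17 : ℝ)).div h.dρ h0)
  refine h1.congr_deriv ?_
  simp only [Pi.pow_apply]
  generalize ρ t / Rr (ρ t) (z t) ^ 3 = A
  field_simp
  push_cast
  ring

theorem Eqs.force_le {t : ℝ} (h : Eqs ρ p z v t) :
    0 ≤ ρ t / Rr (ρ t) (z t) ^ 3 ∧ ρ t / Rr (ρ t) (z t) ^ 3 ≤ 1 / ρ t ^ 2 := by
  have h0 : 0 < ρ t := by linarith [h.one_le]
  have h1 := le_Rr (ρ t) (z t)
  have h2 : 0 < Rr (ρ t) (z t) := by linarith
  refine ⟨by positivity, ?_⟩
  rw [div_le_div_iff₀ (by positivity) (by positivity)]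
  calc ρ t * ρ t ^ 2 = ρ t ^ 3 := by ring
    _ ≤ Rr (ρ t) (z t) ^ 3 := by gcongr
    _ = _ := by ring

theorem K_mono {a b : ℝ} (hab : a ≤ b) (h : ∀ t ∈ Icc a b, Eqs ρ p z v t)
    (hp : ∀ t ∈ Icc a b, 0 ≤ p t) :
    p a ^ 2 / 2 + 18 / ρ a ^ 2 - 17 / ρ a ≤ p b ^ 2 / 2 + 18 / ρ b ^ 2 - 17 / ρ b :=
  mono_le (g := fun t => p t ^ 2 / 2 + 18 / ρ t ^ 2 - 17 / ρ t) hab (fun t ht => (h t ht).dK)
    (fun t ht => mul_nonneg (hp t ht) (sub_nonneg.2 (h t ht).force_le.2))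

theorem p_le {T : ℝ} (hT : 0 ≤ T) (h : ∀ t ∈ Icc 0 T, Eqs ρ p z v t)
    (hp : ∀ t ∈ Icc 0 T, 0 ≤ p t) (h1 : ρ 0 = 1) (h2 : p 0 = 0) : p T ≤ 6 := by
  have := mono_le (g := fun t => -(p t ^ 2 / 2 + 18 / ρ t ^ 2))
    (g' := fun t => p t * (16 / ρ t ^ 2 + ρ t / Rr (ρ t) (z t) ^ 3)) hT (fun t ht => by
      have h0 : ρ t ≠ 0 := by linarith [(h t ht).one_le]
      refine ((((h t ht).dp.pow 2).div_const 2).add
        ((hasDerivAt_const t (18 : ℝ)).div ((h t ht).dρ.pow 2) (pow_ne_zero 2 h0))).neg.congr_deriv ?_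
      simp only [Pi.pow_apply]
      generalize ρ t / Rr (ρ t) (z t) ^ 3 = A
      field_simp
      push_cast
      ring)
    (fun t ht => mul_nonneg (hp t ht) (add_nonneg (by positivity) (h t ht).force_le.1))
  rw [h1, h2] at this
  have h3 : 0 ≤ 18 / ρ T ^ 2 := by positivity
  nlinarith

theorem v_le {T w : ℝ} (hT : 0 ≤ T) (h : ∀ t ∈ Icc 0 T, Eqs ρ p z v t)
    (hp : ∀ t ∈ Icc 0 T, 0 ≤ p t) (h1 : ρ 0 = 1) (h2 : p 0 = 0) (h3 : z 0 = 0) (h4 : v 0 = w) :
    v T ^ 2 ≤ w ^ 2 := by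
  have hK := K_mono hT h hp
  have hE := mono_le (g := fun t => -(p t ^ 2 / 2 + 18 / ρ t ^ 2 - 17 / ρ t + 1 / ρ t
      - 1 / Rr (ρ t) (z t) + v t ^ 2 / 258)) (g' := fun _ => 0) hT (fun t ht => by
      have h0 : ρ t ≠ 0 := by linarith [(h t ht).one_le]
      have hR : Rr (ρ t) (z t) ≠ 0 := by linarith [le_Rr (ρ t) (z t), (h t ht).one_le]
      refine ((((h t ht).dK.add ((hasDerivAt_const t (1 : ℝ)).div (h t ht).dρ h0)).sub
        ((hasDerivAt_const t (1 : ℝ)).div (h t ht).dR hR)).add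
        (((h t ht).dv.pow 2).div_const 258)).neg.congr_deriv ?_
      field_simp
      push_cast
      ring) (fun _ _ => le_rfl)
  have hR0 : Rr (ρ 0) (z 0) = 1 := by rw [h1, h3]; simp [Rr]
  simp only [hR0] at hE
  rw [h1, h2] at hK hE
  rw [h4] at hE
  have hT' := (h T (right_mem_Icc.2 hT)).one_le
  have : 1 / Rr (ρ T) (z T) ≤ 1 / ρ T := one_div_le_one_div_of_le (by linarith) (le_Rr _ _)
  linarith

end est

/-- a solution for all time with initial vertical speed `w` -/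
structure Sol (w : ℝ) (ρ p z v : ℝ → ℝ) : Prop where
  eqs : ∀ t, Eqs ρ p z v t
  ρ0 : ρ 0 = 1
  p0 : p 0 = 0
  z0 : z 0 = 0
  v0 : v 0 = w
  p_nonneg : ∀ t, 0 ≤ t → 0 ≤ p t
  ρ_even : ∀ t, ρ (-t) = ρ t
  z_odd : ∀ t, z (-t) = - z t

theorem cl_neg (R x : ℝ) (hR : 0 ≤ R) : cl R (-x) = - cl R x := by
  unfold cl
  rcases le_total x (-R) with h | h
  · rw [min_eq_left (by linarith), max_eq_right (by linarith), min_eq_right (by linarith),
      max_eq_left h, neg_neg]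
  · rcases le_total x R with h' | h'
    · rw [min_eq_right (by linarith), max_eq_right (by linarith), min_eq_right h',
        max_eq_right h]
    · rw [min_eq_right (by linarith), max_eq_left (by linarith), min_eq_left h',
        max_eq_right (by linarith)]

theorem cl_nonneg {R x : ℝ} (hR : 0 ≤ R) (hx : 0 ≤ x) : 0 ≤ cl R x :=
  le_max_of_le_right (le_min hR hx)

theorem sol_of_flow (w : ℝ) (hw : w ∈ Icc (0 : ℝ) 20) (u : ℝ → ℝ × ℝ × ℝ × ℝ)
    (h0 : u 0 = (1, 0, 0, w)) (hu : ∀ t, HasDerivAt u (W (u t)) t) :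
    Sol w (fun t => (u t).1) (fun t => (u t).2.1) (fun t => (u t).2.2.1)
      (fun t => (u t).2.2.2) := by
  have d1 : ∀ t, HasDerivAt (fun t => (u t).1) (W (u t)).1 t := fun t => (hu t).fst
  have d2 : ∀ t, HasDerivAt (fun t => (u t).2.1) (W (u t)).2.1 t := fun t => (hu t).snd.fst
  have d3 : ∀ t, HasDerivAt (fun t => (u t).2.2.1) (W (u t)).2.2.1 t :=
    fun t => (hu t).snd.snd.fst
  have d4 : ∀ t, HasDerivAt (fun t => (u t).2.2.2) (W (u t)).2.2.2 t :=
    fun t => (hu t).snd.snd.snd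
  have hc : Continuous u := continuous_iff_continuousAt.2 fun t => (hu t).continuousAt
  have hsym : ∀ t, u (-t) = ((u t).1, -(u t).2.1, -(u t).2.2.1, (u t).2.2.2) := by
    have := ODE_solution_unique_univ (v := fun _ => W) (s := fun _ => univ) (K := 1000) (t₀ := 0)
      (f := u) (g := fun t => ((u (-t)).1, -(u (-t)).2.1, -(u (-t)).2.2.1, (u (-t)).2.2.2))
      (fun _ => W_lip.lipschitzOnWith) (fun t => ⟨hu t, mem_univ _⟩) (fun t => ⟨by
        have n := hasDerivAt_neg t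
        refine (((d1 (-t)).comp t n).prodMk (((d2 (-t)).comp t n).neg.prodMk
          (((d3 (-t)).comp t n).neg.prodMk ((d4 (-t)).comp t n)))).congr_deriv ?_
        simp only [W, Rr_neg, cl_neg 7 _ (by norm_num)]
        refine Prod.ext (by ring) (Prod.ext (by ring) (Prod.ext (by ring) (by ring))),
        mem_univ _⟩) (by simp [h0])
    intro t
    have h1 := congrFun this (-t)
    simpa using h1
  have heq : ∀ t, 1 ≤ (u t).1 → |(u t).2.1| ≤ 7 → |(u t).2.2.2| ≤ 21 →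
      Eqs (fun t => (u t).1) (fun t => (u t).2.1) (fun t => (u t).2.2.1)
        (fun t => (u t).2.2.2) t := by
    intro t a1 a2 a3
    have hm : max (u t).1 1 = (u t).1 := max_eq_left a1
    have hne : (u t).1 ≠ 0 := by linarith
    refine ⟨(d1 t).congr_deriv (cl_of_abs_le a2), (d2 t).congr_deriv ?_,
      (d3 t).congr_deriv (cl_of_abs_le a3), (d4 t).congr_deriv ?_, a1⟩
    · simp only [W, hm]
      congr 1
      field_simp
    · simp only [W, hm]
  set s : Set ℝ := {t | 1 ≤ (u t).1 ∧ 0 ≤ (u t).2.1 ∧ (u t).2.1 ≤ 7 ∧ |(u t).2.2.2| ≤ 21}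
    with hs
  have hcl : IsClosed s := by
    have k1 : IsClosed {t | 1 ≤ (u t).1} := isClosed_le continuous_const (by fun_prop)
    have k2 : IsClosed {t | 0 ≤ (u t).2.1} := isClosed_le continuous_const (by fun_prop)
    have k3 : IsClosed {t | (u t).2.1 ≤ 7} := isClosed_le (by fun_prop) continuous_const
    have k4 : IsClosed {t | |(u t).2.2.2| ≤ 21} := isClosed_le (by fun_prop) continuous_const
    exact k1.inter (k2.inter (k3.inter k4))
  have hall : ∀ b, Icc 0 b ⊆ s := by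
    intro b
    refine (hcl.inter isClosed_Icc).Icc_subset_of_forall_mem_nhdsGT_of_Icc_subset ?_ ?_
    · simp only [hs, Set.mem_ofPred_eq, h0]
      exact ⟨le_rfl, le_rfl, by norm_num, abs_le.2 ⟨by linarith [hw.1], by linarith [hw.2]⟩⟩
    · intro T hT hsub
      have hE : ∀ t ∈ Icc 0 T, Eqs (fun t => (u t).1) (fun t => (u t).2.1)
          (fun t => (u t).2.2.1) (fun t => (u t).2.2.2) t := fun t ht =>
        heq t (hsub ht).1 (abs_le.2 ⟨by linarith [(hsub ht).2.1], (hsub ht).2.2.1⟩)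
          (hsub ht).2.2.2
      have hp : ∀ t ∈ Icc 0 T, 0 ≤ (u t).2.1 := fun t ht => (hsub ht).2.1
      have hTT := right_mem_Icc.2 hT.1
      have e1 := K_mono hT.1 hE hp
      have e2 := p_le hT.1 hE hp (by simp [h0]) (by simp [h0])
      have e3 := v_le (w := w) hT.1 hE hp (by simp [h0]) (by simp [h0]) (by simp [h0])
        (by simp [h0])
      simp only [h0] at e1 e2 e3
      have f2 : ∀ᶠ t in 𝓝[>] T, (u t).2.1 ≤ 7 := by
        have : ∀ᶠ t in 𝓝 T, (u t).2.1 < 7 :=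
          (d2 T).continuousAt.eventually (gt_mem_nhds (by linarith))
        exact (this.filter_mono nhdsWithin_le_nhds).mono fun t ht => ht.le
      have f3 : ∀ᶠ t in 𝓝[>] T, |(u t).2.2.2| ≤ 21 := by
        have a : |(u T).2.2.2| < 21 := by
          rw [abs_lt]; constructor <;> nlinarith [hw.1, hw.2]
        have : ∀ᶠ t in 𝓝 T, |(u t).2.2.2| < 21 :=
          (d4 T).continuousAt.abs.eventually (gt_mem_nhds a)
        exact (this.filter_mono nhdsWithin_le_nhds).mono fun t ht => ht.le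
      have f1 : ∀ᶠ t in 𝓝[>] T, 0 ≤ (u t).2.1 := by
        rcases (hp T hTT).lt_or_eq with hpos | hz
        · have : ∀ᶠ t in 𝓝 T, 0 < (u t).2.1 :=
            (d2 T).continuousAt.eventually (lt_mem_nhds hpos)
          exact (this.filter_mono nhdsWithin_le_nhds).mono fun t ht => ht.le
        · have hρ := (hE T hTT).one_le
          have hρ1 : (u T).1 = 1 := by
            rw [← hz] at e1
            have hpos : 0 < (u T).1 := by linarith
            have : (1 : ℝ) ≤ 18 / (u T).1 ^ 2 - 17 / (u T).1 := by norm_num at e1; linarith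
            rw [div_sub_div _ _ (by positivity) hpos.ne', le_div_iff₀ (by positivity)] at this
            nlinarith [mul_pos hpos hpos]
          have hd := (hE T hTT).dp
          have hf := (hE T hTT).force_le.2
          have hpos : 0 < 36 / (u T).1 ^ 3 - 16 / (u T).1 ^ 2
              - (u T).1 / Rr (u T).1 (u T).2.2.1 ^ 3 := by
            simp only [hρ1] at hf ⊢
            linarith
          have hsl := (hasDerivAt_iff_tendsto_slope.1 hd).mono_left
            (nhdsWithin_mono T (fun t (ht : t ∈ Ioi T) => (ne_of_gt ht : t ≠ T)))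
          filter_upwards [hsl.eventually (lt_mem_nhds hpos), self_mem_nhdsWithin] with t ht ht'
          rw [slope_def_field, ← hz, sub_zero] at ht
          exact (div_pos_iff_of_pos_right (sub_pos.2 ht')).1 ht |>.le
      obtain ⟨c, hc1, hc2⟩ := (mem_nhdsGT_iff_exists_Ioc_subset).1 f1
      have f0 : ∀ᶠ t in 𝓝[>] T, 1 ≤ (u t).1 := by
        filter_upwards [Ioc_mem_nhdsGT hc1] with t ht
        have := mono_le (g := fun t => (u t).1) (g' := fun t => (W (u t)).1) ht.1.le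
          (fun r _ => d1 r) (fun r hr => by
            refine cl_nonneg (by norm_num) ?_
            rcases hr.1.lt_or_eq with h | h
            · exact hc2 ⟨h, hr.2.trans ht.2⟩
            · rw [← h]; exact hp T hTT)
        exact (hE T hTT).one_le.trans this
      filter_upwards [f0, f1, f2, f3] with t a b c d
      exact ⟨a, b, c, d⟩
  have hpos : ∀ t, 0 ≤ t → t ∈ s := fun t ht => hall t ⟨ht, le_rfl⟩
  refine ⟨fun t => ?_, by simp [h0], by simp [h0], by simp [h0], by simp [h0],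
    fun t ht => (hpos t ht).2.1, fun t => by simp [hsym], fun t => by simp [hsym]⟩
  rcases le_total 0 t with ht | ht
  · have := hpos t ht
    exact heq t this.1 (abs_le.2 ⟨by linarith [this.2.1], this.2.2.1⟩) this.2.2.2
  · have := hpos (-t) (by linarith)
    simp only [hs, Set.mem_ofPred_eq, hsym] at this
    exact heq t this.1 (abs_le.2 ⟨by linarith [this.2.2.1], by linarith [this.2.1]⟩) this.2.2.2

theorem exists_family : ∃ ρ p z v : ℝ → ℝ → ℝ,
    (∀ w ∈ Icc (0 : ℝ) 20, Sol w (ρ w) (p w) (z w) (v w)) ∧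
    ∀ w w' t, 0 ≤ t → |ρ w t - ρ w' t| ≤ |w - w'| * Real.exp (1000 * t) ∧
      |z w t - z w' t| ≤ |w - w'| * Real.exp (1000 * t) ∧
      |v w t - v w' t| ≤ |w - w'| * Real.exp (1000 * t) := by
  obtain ⟨Φ, h0, h1, h2⟩ := exists_flow W 1000 129 W_lip W_bound
  refine ⟨fun w t => (Φ (1, 0, 0, w) t).1, fun w t => (Φ (1, 0, 0, w) t).2.1,
    fun w t => (Φ (1, 0, 0, w) t).2.2.1, fun w t => (Φ (1, 0, 0, w) t).2.2.2,
    fun w hw => sol_of_flow w hw _ (h0 _) (h1 _), fun w w' t ht => ?_⟩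
  have h := h2 (1, 0, 0, w) (1, 0, 0, w') t ht
  have e : dist ((1, 0, 0, w) : ℝ × ℝ × ℝ × ℝ) (1, 0, 0, w') = |w - w'| := by
    simp [Prod.dist_eq, Real.dist_eq]
  rw [e] at h
  simp only [Prod.dist_eq, Real.dist_eq, max_le_iff, NNReal.coe_ofNat] at h
  exact ⟨h.1, h.2.2.1, h.2.2.2⟩

end Pool.Agent.H113Z.Iso
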