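import Pool.Agent.H113Z.Iso.Flow

/-!
Shooting: an isosceles motion whose vertical velocity tends to zero.
-/

set_option autoImplicit false

open Set Filter Topology

namespace Pool.Agent.H113Z.Iso

theorem conc {g g1 : ℝ → ℝ} (hd : ∀ t, HasDerivAt g (g1 t) t)
    (ha : ∀ s t, 0 ≤ s → s ≤ t → g1 t ≤ g1 s) (h0 : ∀ t, 0 ≤ t → 0 ≤ g t) (T : ℝ) (hT : 0 ≤ T) :
    0 ≤ g1 T := by
  by_contra hneg
  push Not at hneg
  set t := T + (g T + 1) / (-g1 T) with ht
  have h1 : 0 ≤ (g T + 1) / (-g1 T) := div_nonneg (by linarith [h0 T hT]) (by linarith)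
  have h2 := mono_le (g := fun s => g1 T * s - g s) (g' := fun s => g1 T - g1 s)
    (show T ≤ t by linarith) (fun s _ =>
      (((hasDerivAt_id s).const_mul (g1 T)).sub (hd s)).congr_deriv (by ring))
    (fun s hs => sub_nonneg.2 (ha T s hT hs.1))
  have h3 : g1 T * t = g1 T * T - (g T + 1) := by
    rw [ht]; have : g1 T ≠ 0 := hneg.ne; field_simp; ring
  have h4 := h0 t (by linarith)
  linarith

theorem tendsto_div {g g1 : ℝ → ℝ} {L : ℝ} (hd : ∀ t, HasDerivAt g (g1 t) t)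
    (hL : Tendsto g1 atTop (𝓝 L)) : Tendsto (fun t => t⁻¹ * g t) atTop (𝓝 L) := by
  rw [Metric.tendsto_atTop] at hL ⊢
  intro ε hε
  obtain ⟨T, hT⟩ := hL (ε / 2) (by linarith)
  have h0 : Tendsto (fun t : ℝ => t⁻¹ * (|g T - L * T| + ε / 2 * |T|)) atTop (𝓝 0) := by
    simpa using tendsto_inv_atTop_zero.mul_const (|g T - L * T| + ε / 2 * |T|)
  obtain ⟨T', hT'⟩ := eventually_atTop.1 (h0.eventually (gt_mem_nhds (show 0 < ε / 2 by linarith)))
  refine ⟨max (max T T') 1, fun t ht => ?_⟩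
  have t1 : T ≤ t := (le_max_left _ _).trans ((le_max_left _ _).trans ht)
  have t2 : T' ≤ t := (le_max_right _ _).trans ((le_max_left _ _).trans ht)
  have t3 : 0 < t := lt_of_lt_of_le one_pos ((le_max_right _ _).trans ht)
  have a1 := mono_le (g := fun s => (L + ε / 2) * s - g s) (g' := fun s => (L + ε / 2) - g1 s)
    t1 (fun s _ => (((hasDerivAt_id s).const_mul (L + ε / 2)).sub (hd s)).congr_deriv (by ring))
    (fun s hs => by have := abs_lt.1 (hT s hs.1); linarith [this.2])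
  have a2 := mono_le (g := fun s => g s - (L - ε / 2) * s) (g' := fun s => g1 s - (L - ε / 2))
    t1 (fun s _ => ((hd s).sub ((hasDerivAt_id s).const_mul (L - ε / 2))).congr_deriv (by ring))
    (fun s hs => by have := abs_lt.1 (hT s hs.1); linarith [this.1])
  have a3 := hT' t t2
  rw [inv_mul_lt_iff₀ t3] at a3
  have e : t⁻¹ * g t - L = t⁻¹ * (g t - L * t) := by field_simp
  rw [Real.dist_eq, e, abs_mul, abs_of_pos (inv_pos.2 t3), inv_mul_lt_iff₀ t3, abs_lt]
  have b1 := le_abs_self (g T - L * T)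
  have b2 := neg_abs_le (g T - L * T)
  have b3 := mul_le_mul_of_nonneg_left (le_abs_self T) (show 0 ≤ ε / 2 by linarith)
  have b4 := mul_le_mul_of_nonneg_left (neg_abs_le T) (show 0 ≤ ε / 2 by linarith)
  constructor <;> nlinarith

namespace Sol

variable {w : ℝ} {ρ p z v : ℝ → ℝ} (h : Sol w ρ p z v)
include h

theorem ρ_pos (t : ℝ) : 0 < ρ t := by linarith [(h.eqs t).one_le]
theorem R_pos (t : ℝ) : 0 < Rr (ρ t) (z t) := (h.ρ_pos t).trans_le (le_Rr _ _)

theorem K_le {a b : ℝ} (ha : 0 ≤ a) (hab : a ≤ b) :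
    p a ^ 2 / 2 + 18 / ρ a ^ 2 - 17 / ρ a ≤ p b ^ 2 / 2 + 18 / ρ b ^ 2 - 17 / ρ b :=
  K_mono hab (fun t _ => h.eqs t) (fun t ht => h.p_nonneg t (ha.trans ht.1))

theorem K_ge {t : ℝ} (ht : 0 ≤ t) : 1 ≤ p t ^ 2 / 2 + 18 / ρ t ^ 2 - 17 / ρ t := by
  have := h.K_le le_rfl ht
  rw [h.p0, h.ρ0] at this
  linarith

theorem p_le6 {t : ℝ} (ht : 0 ≤ t) : p t ≤ 6 :=
  p_le ht (fun t _ => h.eqs t) (fun t ht => h.p_nonneg t ht.1) h.ρ0 h.p0

theorem v_sq {t : ℝ} (ht : 0 ≤ t) : v t ^ 2 ≤ w ^ 2 :=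
  v_le ht (fun t _ => h.eqs t) (fun t ht => h.p_nonneg t ht.1) h.ρ0 h.p0 h.z0 h.v0

theorem rho_sq {t : ℝ} (ht : 0 ≤ t) : 1 + 2 * t ^ 2 ≤ ρ t ^ 2 := by
  have h1 : ∀ s, 0 ≤ s → 2 * s ≤ ρ s * p s := by
    intro s hs
    have := mono_le (g := fun r => ρ r * p r - 2 * r)
      (g' := fun r => p r * p r + ρ r * (36 / ρ r ^ 3 - 16 / ρ r ^ 2
        - ρ r / Rr (ρ r) (z r) ^ 3) - 2) hs (fun r _ =>
        (((h.eqs r).dρ.mul (h.eqs r).dp).sub ((hasDerivAt_id r).const_mul 2)).congr_deriv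
          (by ring))
      (fun r hr => by
        have a1 := h.K_ge hr.1
        have a2 := mul_le_mul_of_nonneg_left (h.eqs r).force_le.2 (h.ρ_pos r).le
        have a0 := (h.ρ_pos r).ne'
        have e1 : ρ r * (1 / ρ r ^ 2) = 1 / ρ r := by field_simp
        have e2 : ρ r * (36 / ρ r ^ 3 - 16 / ρ r ^ 2 - ρ r / Rr (ρ r) (z r) ^ 3)
            = 2 * (18 / ρ r ^ 2) - 16 * (1 / ρ r) - ρ r * (ρ r / Rr (ρ r) (z r) ^ 3) := by
          field_simp; ring
        have e3 : 17 / ρ r = 17 * (1 / ρ r) := by ring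
        have a3 : 0 < 1 / ρ r := by have := h.ρ_pos r; positivity
        rw [e2]; rw [e1] at a2; rw [e3] at a1
        nlinarith)
    rw [h.p0] at this
    linarith
  have := mono_le (g := fun r => ρ r ^ 2 - 2 * r ^ 2) (g' := fun r => 2 * (ρ r * p r) - 4 * r) ht
    (fun r _ => (((h.eqs r).dρ.pow 2).sub ((hasDerivAt_pow 2 r).const_mul 2)).congr_deriv
      (by push_cast; ring)) (fun r hr => by linarith [h1 r hr.1])
  rw [h.ρ0] at this
  linarith

theorem le_rho {t : ℝ} (ht : 0 ≤ t) : t ≤ ρ t := by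
  nlinarith [h.rho_sq ht, h.ρ_pos t]

theorem escape {T : ℝ} (hT : 0 ≤ T) (h1 : 0 < v T) (h2 : 0 < v T ^ 2 / 2 - 129 / Rr (ρ T) (z T))
    (t : ℝ) (ht : T ≤ t) : 0 < v t := by
  by_contra hneg
  push Not at hneg
  obtain ⟨s, hs, hs0⟩ := intermediate_value_Icc' ht
    (fun r _ => (h.eqs r).dv.continuousAt.continuousWithinAt) ⟨hneg, h1.le⟩
  have := mono_le (g := fun r => v r ^ 2 / 2 - 129 / Rr (ρ r) (z r))
    (g' := fun r => 129 * (ρ r * p r) / Rr (ρ r) (z r) ^ 3) hs.1 (fun r _ => by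
      have hR := (h.R_pos r).ne'
      refine ((((h.eqs r).dv.pow 2).div_const 2).sub
        ((hasDerivAt_const r (129 : ℝ)).div (h.eqs r).dR hR)).congr_deriv ?_
      field_simp
      push_cast
      ring) (fun r hr => by
      have := h.ρ_pos r; have := h.R_pos r; have := h.p_nonneg r (hT.trans hr.1); positivity)
  rw [hs0] at this
  have h3 : 0 < 129 / Rr (ρ s) (z s) := by have := h.R_pos s; positivity
  linarith

theorem z_nonneg (hv : ∀ t, 0 ≤ t → 0 ≤ v t) (t : ℝ) (ht : 0 ≤ t) : 0 ≤ z t := by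
  have := mono_le ht (fun r _ => (h.eqs r).dz) (fun r hr => hv r hr.1)
  rwa [h.z0] at this

theorem v_anti (hz : ∀ t, 0 ≤ t → 0 ≤ z t) (s t : ℝ) (hs : 0 ≤ s) (hst : s ≤ t) : v t ≤ v s := by
  have := mono_le (g := fun r => - v r) hst (fun r _ => (h.eqs r).dv.neg) (fun r hr => by
    have := hz r (hs.trans hr.1); have := h.R_pos r
    rw [neg_mul, neg_neg]; positivity)
  linarith

theorem v_nonneg (hz : ∀ t, 0 ≤ t → 0 ≤ z t) (t : ℝ) (ht : 0 ≤ t) : 0 ≤ v t :=
  conc (fun r => (h.eqs r).dz) (h.v_anti hz) hz t ht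

end Sol

/-- the polar angle of the heavy bodies -/
noncomputable def ang (ρ : ℝ → ℝ) (t : ℝ) : ℝ := ∫ s in (0 : ℝ)..t, 6 / ρ s ^ 2

theorem ang_zero (ρ : ℝ → ℝ) : ang ρ 0 = 0 := by simp [ang]

namespace Sol

variable {w : ℝ} {ρ p z v : ℝ → ℝ} (h : Sol w ρ p z v)
include h

theorem d_ang (t : ℝ) : HasDerivAt (ang ρ) (6 / ρ t ^ 2) t := by
  have hc : Continuous ρ := continuous_iff_continuousAt.2 fun t => (h.eqs t).dρ.continuousAt
  have : Continuous fun s => 6 / ρ s ^ 2 :=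
    continuous_const.div (hc.pow 2) fun s => pow_ne_zero 2 (h.ρ_pos s).ne'
  exact (this.integral_hasStrictDerivAt 0 t).hasDerivAt

theorem ang_odd (t : ℝ) : ang ρ (-t) = - ang ρ t := by
  have : ang ρ t = ∫ s in (0 : ℝ)..t, 6 / ρ (-s) ^ 2 := by simp only [ang, h.ρ_even]
  rw [this, intervalIntegral.integral_comp_neg (fun s => 6 / ρ s ^ 2), neg_zero,
    intervalIntegral.integral_symm, neg_neg]
  rfl

theorem ang_mono : Monotone (ang ρ) := fun _ _ hab =>
  mono_le hab (fun r _ => h.d_ang r) (fun r _ => by positivity)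

theorem dX (t : ℝ) : HasDerivAt (fun t => ρ t * Real.cos (ang ρ t))
    (p t * Real.cos (ang ρ t) - 6 / ρ t * Real.sin (ang ρ t)) t := by
  have := (h.ρ_pos t).ne'
  exact ((h.eqs t).dρ.mul (h.d_ang t).cos).congr_deriv (by field_simp; ring)

theorem dY (t : ℝ) : HasDerivAt (fun t => ρ t * Real.sin (ang ρ t))
    (p t * Real.sin (ang ρ t) + 6 / ρ t * Real.cos (ang ρ t)) t := by
  have := (h.ρ_pos t).ne'
  exact ((h.eqs t).dρ.mul (h.d_ang t).sin).congr_deriv (by field_simp)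

theorem dX1 (t : ℝ) :
    HasDerivAt (fun t => p t * Real.cos (ang ρ t) - 6 / ρ t * Real.sin (ang ρ t))
      (-(16 / ρ t ^ 3 + 1 / Rr (ρ t) (z t) ^ 3) * (ρ t * Real.cos (ang ρ t))) t := by
  have h0 := (h.ρ_pos t).ne'
  have hR := (h.R_pos t).ne'
  refine (((h.eqs t).dp.mul (h.d_ang t).cos).sub
    (((hasDerivAt_const t (6 : ℝ)).div (h.eqs t).dρ h0).mul (h.d_ang t).sin)).congr_deriv ?_
  simp only [Pi.div_apply]
  field_simp
  ring

theorem dY1 (t : ℝ) :
    HasDerivAt (fun t => p t * Real.sin (ang ρ t) + 6 / ρ t * Real.cos (ang ρ t))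
      (-(16 / ρ t ^ 3 + 1 / Rr (ρ t) (z t) ^ 3) * (ρ t * Real.sin (ang ρ t))) t := by
  have h0 := (h.ρ_pos t).ne'
  have hR := (h.R_pos t).ne'
  refine (((h.eqs t).dp.mul (h.d_ang t).sin).add
    (((hasDerivAt_const t (6 : ℝ)).div (h.eqs t).dρ h0).mul (h.d_ang t).cos)).congr_deriv ?_
  simp only [Pi.div_apply]
  field_simp
  ring

theorem exists_quarter : ∃ t, 0 ≤ t ∧ ang ρ t = Real.pi / 2 := by
  by_contra hne
  push Not at hne
  have hlt : ∀ t, 0 ≤ t → ang ρ t < Real.pi / 2 := by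
    intro t ht
    by_contra hge
    push Not at hge
    obtain ⟨s, hs, hs0⟩ := intermediate_value_Icc ht
      (fun r _ => (h.d_ang r).continuousAt.continuousWithinAt)
      (show Real.pi / 2 ∈ Icc (ang ρ 0) (ang ρ t) from
        ⟨by rw [ang_zero]; positivity, hge⟩)
    exact hne s hs.1 hs0
  have hX : ∀ t, 0 ≤ t → 0 < ρ t * Real.cos (ang ρ t) := by
    intro t ht
    have h1 := h.ang_mono ht
    rw [ang_zero] at h1
    exact mul_pos (h.ρ_pos t) (Real.cos_pos_of_mem_Ioo ⟨by linarith [Real.pi_pos], hlt t ht⟩)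
  have hanti : ∀ s t, 0 ≤ s → s ≤ t →
      p t * Real.cos (ang ρ t) - 6 / ρ t * Real.sin (ang ρ t)
        ≤ p s * Real.cos (ang ρ s) - 6 / ρ s * Real.sin (ang ρ s) := by
    intro s t hs hst
    have := mono_le (g := fun t => -(p t * Real.cos (ang ρ t) - 6 / ρ t * Real.sin (ang ρ t)))
      hst (fun r _ => (h.dX1 r).neg) (fun r hr => by
        have := hX r (hs.trans hr.1); have := h.R_pos r; have := h.ρ_pos r
        rw [neg_mul, neg_neg]; positivity)
    linarith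
  have h1 := conc h.dX hanti (fun t ht => (hX t ht).le)
  have h2 : (fun t => p t * Real.cos (ang ρ t) - 6 / ρ t * Real.sin (ang ρ t))
      =ᶠ[𝓝 1] fun _ => 0 := by
    filter_upwards [Ioi_mem_nhds (show (0 : ℝ) < 1 from one_pos)] with t ht
    have a := hanti 0 t le_rfl (le_of_lt ht)
    rw [h.p0, ang_zero] at a
    simp only [Real.sin_zero, mul_zero, zero_mul, sub_zero] at a
    exact le_antisymm a (h1 t (le_of_lt ht))
  have h3 := ((h.dX1 1).congr_of_eventuallyEq h2.symm).unique (hasDerivAt_const 1 0)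
  have h4 : 0 < (16 / ρ 1 ^ 3 + 1 / Rr (ρ 1) (z 1) ^ 3) * (ρ 1 * Real.cos (ang ρ 1)) := by
    have := hX 1 zero_le_one; have := h.R_pos 1; have := h.ρ_pos 1; positivity
  linarith

end Sol

theorem small {ρ p z v : ℝ → ℝ} (h : Sol (1 / 10) ρ p z v) : ∃ t, 0 ≤ t ∧ z t < 0 := by
  by_contra hne
  push Not at hne
  obtain ⟨T, hT, hq⟩ := h.exists_quarter
  have hv := h.v_nonneg hne
  have hT0 : 0 < T := by
    rcases hT.lt_or_eq with h1 | h1
    · exact h1
    · rw [← h1, ang_zero] at hq; linarith [Real.pi_pos]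
  have hzT : 0 < z T := by
    have hsl := (hasDerivAt_iff_tendsto_slope.1 (h.eqs 0).dz).mono_left
      (nhdsWithin_mono 0 (fun t (ht : t ∈ Ioi (0 : ℝ)) => (ne_of_gt ht : t ≠ 0)))
    rw [h.v0] at hsl
    obtain ⟨s, hs1, hs2⟩ := ((hsl.eventually (lt_mem_nhds (show (0 : ℝ) < 1 / 10 by norm_num))).and
      (Ioc_mem_nhdsGT hT0)).exists
    rw [slope_def_field, h.z0, sub_zero, sub_zero] at hs1
    have a1 : 0 < z s := (div_pos_iff_of_pos_right hs2.1).1 hs1
    exact a1.trans_le (mono_le hs2.2 (fun r _ => (h.eqs r).dz)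
      (fun r hr => hv r (hs2.1.le.trans hr.1)))
  have hzle : ∀ t, 0 ≤ t → z t ≤ t / 10 := by
    intro t ht
    have := mono_le (g := fun r => r / 10 - z r) (g' := fun r => 1 / 10 - v r) ht
      (fun r _ => ((hasDerivAt_id r).div_const 10).sub (h.eqs r).dz) (fun r hr => by
        have := h.v_anti hne 0 r le_rfl hr.1
        rw [h.v0] at this; linarith)
    rw [h.z0] at this
    linarith
  have hW := mono_le (g := fun t => z t * (p t * Real.sin (2 * ang ρ t)
      + 12 / ρ t * Real.cos (2 * ang ρ t)) - v t * (ρ t * Real.sin (2 * ang ρ t)))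
    (g' := fun t => z t * (ρ t * Real.sin (2 * ang ρ t))
      * (128 / Rr (ρ t) (z t) ^ 3 - 16 / ρ t ^ 3 - 108 / ρ t ^ 4)) hT (fun t _ => by
      have h0 := (h.ρ_pos t).ne'
      have hR := (h.R_pos t).ne'
      have a := (h.d_ang t).const_mul 2
      refine (((h.eqs t).dz.mul (((h.eqs t).dp.mul a.sin).add
        (((hasDerivAt_const t (12 : ℝ)).div (h.eqs t).dρ h0).mul a.cos))).sub
        ((h.eqs t).dv.mul ((h.eqs t).dρ.mul a.sin))).congr_deriv ?_
      simp only [Pi.div_apply, Pi.mul_apply, Pi.add_apply]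
      field_simp
      ring) (fun t ht => by
      have h0 := h.ρ_pos t
      have h1 := (h.eqs t).one_le
      have hR := h.R_pos t
      have a1 := h.ang_mono ht.1
      have a2 := h.ang_mono ht.2
      rw [ang_zero] at a1
      rw [hq] at a2
      have a3 : 0 ≤ Real.sin (2 * ang ρ t) :=
        Real.sin_nonneg_of_nonneg_of_le_pi (by linarith) (by linarith)
      refine mul_nonneg (mul_nonneg (hne t ht.1) (mul_nonneg h0.le a3)) ?_
      have b1 : Rr (ρ t) (z t) ≤ 1.01 * ρ t := by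
        refine Real.sqrt_le_iff.2 ⟨by positivity, ?_⟩
        have := h.le_rho ht.1
        have := hzle t ht.1
        have := hne t ht.1
        nlinarith
      have b2 : 128 / (1.01 * ρ t) ^ 3 ≤ 128 / Rr (ρ t) (z t) ^ 3 := by gcongr
      have b3 : 108 / ρ t ^ 4 ≤ 108 / ρ t ^ 3 := by
        gcongr
        · norm_num
      have b4 : 124 / ρ t ^ 3 ≤ 128 / (1.01 * ρ t) ^ 3 := by
        rw [div_le_div_iff₀ (by positivity) (by positivity)]
        nlinarith [pow_pos h0 3]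
      have b5 : 124 / ρ t ^ 3 = 16 / ρ t ^ 3 + 108 / ρ t ^ 3 := by ring
      linarith)
  simp only [h.z0, ang_zero, hq] at hW
  rw [show 2 * (Real.pi / 2) = Real.pi by ring] at hW
  simp at hW
  have : 0 < z T * (12 / ρ T) := by have := h.ρ_pos T; positivity
  nlinarith

theorem exists_flat : ∃ (w : ℝ) (ρ p z v : ℝ → ℝ), 0 < w ∧ Sol w ρ p z v ∧
    Tendsto v atTop (𝓝 0) := by
  obtain ⟨ρ, p, z, v, hS, hc⟩ := exists_family
  set Bs : Set ℝ := {w | w ∈ Icc (1 / 10 : ℝ) 17 ∧ ∃ t, 0 ≤ t ∧ z w t < 0} with hB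
  have hne : Bs.Nonempty := ⟨1 / 10, ⟨le_rfl, by norm_num⟩, small (hS _ ⟨by norm_num, by norm_num⟩)⟩
  have hbd : BddAbove Bs := ⟨17, fun w hw => hw.1.2⟩
  set c := sSup Bs with hcdef
  have c1 : 1 / 10 ≤ c := le_csSup hbd ⟨⟨le_rfl, by norm_num⟩,
    small (hS _ ⟨by norm_num, by norm_num⟩)⟩
  have c2 : c ≤ 17 := csSup_le hne fun w hw => hw.1.2
  have h := hS c ⟨by linarith, by linarith⟩
  have h17 : ∀ t, 0 ≤ t → 0 ≤ z 17 t := by
    have g := hS 17 ⟨by norm_num, by norm_num⟩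
    refine g.z_nonneg fun t ht => (g.escape le_rfl (by rw [g.v0]; norm_num) ?_ t ht).le
    rw [g.v0, g.ρ0, g.z0]; simp [Rr]; norm_num
  have hz : ∀ t, 0 ≤ t → 0 ≤ z c t := by
    intro t ht
    by_contra hneg
    push Not at hneg
    have c3 : c < 17 := lt_of_le_of_ne c2 fun e => by rw [e] at hneg; linarith [h17 t ht]
    have hE := Real.exp_pos (1000 * t)
    set δ := min (17 - c) (-z c t / (2 * Real.exp (1000 * t))) with hδ
    have δ0 : 0 < δ := lt_min (by linarith) (div_pos (by linarith) (by positivity))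
    have δ1 : δ ≤ 17 - c := min_le_left _ _
    have δ2 : δ * Real.exp (1000 * t) ≤ -z c t / 2 := by
      have : δ ≤ -z c t / (2 * Real.exp (1000 * t)) := min_le_right _ _
      rw [le_div_iff₀ (by positivity)] at this
      linarith
    have a := (hc (c + δ) c t ht).2.1
    rw [add_sub_cancel_left, abs_of_pos δ0] at a
    have b : c + δ ∈ Bs := ⟨⟨by linarith, by linarith⟩, t, ht, by linarith [(abs_le.1 a).2]⟩
    linarith [le_csSup hbd b]
  refine ⟨c, ρ c, p c, z c, v c, by linarith, h, ?_⟩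
  rw [Metric.tendsto_atTop]
  intro ε hε
  by_contra hcon
  push Not at hcon
  have hlow : ∀ t, 0 ≤ t → ε ≤ v c t := by
    intro t ht
    obtain ⟨s, hs1, hs2⟩ := hcon t
    rw [Real.dist_eq, sub_zero, abs_of_nonneg (h.v_nonneg hz s (ht.trans hs1))] at hs2
    exact hs2.trans (h.v_anti hz t s ht hs1)
  set T : ℝ := 2000 / ε ^ 2 with hT
  have T0 : 0 < T := by positivity
  have hE := Real.exp_pos (1000 * T)
  obtain ⟨w, hw, hw2⟩ := exists_lt_of_lt_csSup hne
    (show c - ε / (2 * Real.exp (1000 * T)) < sSup Bs by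
      have : 0 < ε / (2 * Real.exp (1000 * T)) := by positivity
      linarith)
  have hwc : w ≤ c := le_csSup hbd hw
  have g := hS w ⟨by linarith [hw.1.1], by linarith [hw.1.2]⟩
  have hv1 : ∀ t, 0 ≤ t → t ≤ T → ε / 2 ≤ v w t := by
    intro t ht htT
    have a := (hc c w t ht).2.2
    have a1 : |c - w| * Real.exp (1000 * t) ≤ ε / 2 := by
      rw [abs_of_nonneg (by linarith)]
      calc (c - w) * Real.exp (1000 * t)
          ≤ (ε / (2 * Real.exp (1000 * T))) * Real.exp (1000 * T) := by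
            gcongr; linarith
        _ = ε / 2 := by field_simp
    linarith [(abs_le.1 a).2, hlow t ht]
  have hv2 : ∀ t, T ≤ t → 0 < v w t := by
    refine g.escape T0.le (by linarith [hv1 T T0.le le_rfl]) ?_
    have a1 := hv1 T T0.le le_rfl
    have a2 : T ≤ Rr (ρ w T) (z w T) := (g.le_rho T0.le).trans (le_Rr _ _)
    have a3 : 129 / Rr (ρ w T) (z w T) ≤ 129 / T := by gcongr
    have a4 : 129 / T = 129 / 2000 * ε ^ 2 := by rw [hT]; field_simp
    nlinarith
  obtain ⟨t, ht, hzt⟩ := hw.2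
  have := g.z_nonneg (fun s hs => by
    rcases le_total s T with a | a
    · linarith [hv1 s hs a]
    · exact (hv2 s a).le) t ht
  linarith

namespace Sol

variable {w : ℝ} {ρ p z v : ℝ → ℝ} (h : Sol w ρ p z v)
include h

theorem lim_ang : ∃ f, Tendsto (ang ρ) atTop (𝓝 f) := by
  refine ⟨_, tendsto_atTop_ciSup h.ang_mono ⟨6 * (Real.pi / 2), ?_⟩⟩
  rintro _ ⟨t, rfl⟩
  rcases le_total t 0 with ht | ht
  · have := h.ang_mono ht
    rw [ang_zero] at this
    linarith [Real.pi_pos]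
  · have := mono_le (g := fun r => 6 * Real.arctan r - ang ρ r)
      (g' := fun r => 6 * (1 / (1 + r ^ 2)) - 6 / ρ r ^ 2) ht
      (fun r _ => ((Real.hasDerivAt_arctan r).const_mul 6).sub (h.d_ang r)) (fun r hr => by
        have a := h.rho_sq hr.1
        have : 6 / ρ r ^ 2 ≤ 6 / (1 + r ^ 2) := by gcongr; nlinarith [sq_nonneg r]
        rw [mul_one_div]; linarith)
    rw [ang_zero, Real.arctan_zero] at this
    linarith [Real.arctan_lt_pi_div_two t]

theorem lim_p : ∃ L, 0 < L ∧ Tendsto p atTop (𝓝 L) := by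
  set K : ℝ → ℝ := fun t => p (max t 0) ^ 2 / 2 + 18 / ρ (max t 0) ^ 2 - 17 / ρ (max t 0)
    with hK
  have hm : Monotone K := fun a b hab => h.K_le (le_max_right _ _) (max_le_max_right 0 hab)
  have hb : BddAbove (range K) := by
    refine ⟨36, ?_⟩
    rintro _ ⟨t, rfl⟩
    have a1 := h.p_le6 (le_max_right t 0)
    have a2 := h.p_nonneg _ (le_max_right t 0)
    have a3 := (h.eqs (max t 0)).one_le
    have a4 : 18 / ρ (max t 0) ^ 2 ≤ 18 := div_le_self (by norm_num) (one_le_pow₀ a3)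
    have a5 : 0 ≤ 17 / ρ (max t 0) := by positivity
    simp only [hK]
    nlinarith
  have h1 := tendsto_atTop_ciSup hm hb
  have h2 : 1 ≤ ⨆ t, K t := (h.K_ge (le_max_right 0 0)).trans (le_ciSup hb 0)
  have hρ : Tendsto ρ atTop atTop :=
    tendsto_atTop_mono' atTop ((eventually_ge_atTop 0).mono fun t ht => h.le_rho ht) tendsto_id
  have h3 : Tendsto (fun t => 17 / ρ t) atTop (𝓝 0) := hρ.const_div_atTop 17
  have h4 : Tendsto (fun t => 18 / ρ t ^ 2) atTop (𝓝 0) :=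
    ((tendsto_pow_atTop two_ne_zero).comp hρ).const_div_atTop 18
  have h5 := (((h1.sub h4).add h3).const_mul 2).sqrt
  refine ⟨_, Real.sqrt_pos.2 (by linarith), h5.congr' ?_⟩
  filter_upwards [eventually_ge_atTop 0] with t ht
  simp only [hK, max_eq_left ht]
  rw [show 2 * (p t ^ 2 / 2 + 18 / ρ t ^ 2 - 17 / ρ t - 18 / ρ t ^ 2 + 17 / ρ t) = p t ^ 2 by ring,
    Real.sqrt_sq (h.p_nonneg t ht)]

end Sol

end Pool.Agent.H113Z.Iso
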